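import Mathlib

/-!
Definitions for problem MP_1905b6_pr (long-range percolation on a countable group).
-/

open MeasureTheory ProbabilityTheory
open scoped ENNReal NNReal

namespace Pool.Agent.Lib.MP_1905b6_pr

/-- A generating measure on the group `G`: a probability measure (probability mass function) on `G`
which is symmetric and whose support generates `G`. -/
structure GeneratingMeasure (G : Type) [Group G] where
  /-- the underlying probability mass function -/
  toPMF : PMF G
  /-- symmetry: `μ(g⁻¹) = μ(g)` -/
  symm : ∀ g : G, toPMF g⁻¹ = toPMF g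
  /-- the support generates the group -/
  gen : Subgroup.closure toPMF.support = ⊤

variable {G : Type} [Group G]

/-- The mass `μ(g⁻¹ h)` attached to the unordered pair `{g, h}` (well defined by symmetry). -/
noncomputable def edgeMass (μ : GeneratingMeasure G) : Sym2 G → ℝ≥0 :=
  Sym2.lift ⟨fun g h => (μ.toPMF (g⁻¹ * h)).toNNReal, fun g h => by
    have := μ.symm (g⁻¹ * h)
    rw [mul_inv_rev, inv_inv] at this
    simp only [this]⟩

/-- The law of the edge counts of `G_μ(λ)`: independently for each unordered pair `{g, h}` of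
distinct elements, the number of edges joining `g` and `h` is Poisson with mean `λ μ(g⁻¹ h)`. -/
noncomputable def percLaw (μ : GeneratingMeasure G) (lam : ℝ≥0) :
    Measure ({e : Sym2 G // ¬ e.IsDiag} → ℕ) :=
  Measure.infinitePi (fun e => poissonMeasure (lam * edgeMass μ e.1))

/-- The (simple graph underlying the) random multigraph with edge counts `ω`: `g` and `h` are
adjacent iff they are distinct and at least one edge joins them. -/
def openGraph (ω : {e : Sym2 G // ¬ e.IsDiag} → ℕ) : SimpleGraph G where
  Adj g h := ∃ hne : ¬ (s(g, h)).IsDiag, 0 < ω ⟨s(g, h), hne⟩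
  symm := ⟨fun g h hgh => by
    have e : s(h, g) = s(g, h) := Sym2.eq_swap
    obtain ⟨hne, hpos⟩ := hgh
    refine ⟨by rw [e]; exact hne, ?_⟩
    have : (⟨s(h, g), by rw [e]; exact hne⟩ : {e : Sym2 G // ¬ e.IsDiag}) = ⟨s(g, h), hne⟩ :=
      Subtype.ext e
    rw [this]; exact hpos⟩
  loopless := ⟨fun g hg => hg.1 (by simp)⟩

/-- The `μ`-boundary `|∂S| = ∑_{g ∈ S, h ∉ S} μ(g⁻¹ h)` of a finite set `S`. -/
noncomputable def boundary (μ : GeneratingMeasure G) (S : Finset G) : ℝ≥0∞ :=
  ∑ g ∈ S, ∑' h : {h : G // h ∉ S}, μ.toPMF (g⁻¹ * h.1)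

end Pool.Agent.Lib.MP_1905b6_pr
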