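import Pool.Agent.Lib.MP_1905b6_pr.Defs

section

/-!
The group `ℤ × ⨁ ℤ/2` and the measure used in the counterexample.
-/

open MeasureTheory ProbabilityTheory
open scoped ENNReal NNReal

namespace Pool.Agent.Lib.MP_1905b6_pr

/-- additive model of the group -/
abbrev A := ℤ × (ℕ →₀ ZMod 2)

/-- the group -/
abbrev Γ := Multiplicative A

/-- basis vector -/
noncomputable def bv (j : ℕ) : ℕ →₀ ZMod 2 := Finsupp.single j 1

/-- weights of rungs -/
noncomputable def wt (j : ℕ) : ℝ≥0∞ := (2⁻¹ : ℝ≥0∞) ^ (2 ^ (j + 1) + j)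

/-- unnormalised weights -/
noncomputable def fw (x : A) : ℝ≥0∞ :=
  (if x = ((1 : ℤ), (0 : ℕ →₀ ZMod 2)) then 1 else 0)
    + (if x = ((-1 : ℤ), (0 : ℕ →₀ ZMod 2)) then 1 else 0)
    + ∑' j : ℕ, (if x = ((0 : ℤ), bv j) then wt j else 0)

lemma bv_ne_zero (j : ℕ) : bv j ≠ 0 := by
  simp [bv]

lemma bv_injective : Function.Injective bv := by
  intro i j h
  exact Finsupp.single_left_injective (one_ne_zero) h

lemma neg_bv (j : ℕ) : - bv j = bv j := by
  unfold bv
  rw [← Finsupp.single_neg]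
  rfl

lemma bv_add_self (j : ℕ) : bv j + bv j = 0 := by
  nth_rewrite 1 [← neg_bv j]
  simp

lemma wt_le_geom (j : ℕ) : wt j ≤ (2⁻¹ : ℝ≥0∞) ^ j := by
  unfold wt
  exact pow_le_pow_right_of_le_one' (by simp) (Nat.le_add_left _ _)

lemma tsum_wt_ne_top : ∑' j, wt j ≠ ∞ := by
  apply ne_top_of_le_ne_top _ (ENNReal.tsum_le_tsum wt_le_geom)
  rw [ENNReal.tsum_geometric]
  simp [ENNReal.one_sub_inv_two]

/-- total mass -/
noncomputable def T : ℝ≥0∞ := 2 + ∑' j, wt j

lemma T_ne_top : T ≠ ∞ := by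
  unfold T
  simp [tsum_wt_ne_top]

lemma T_ne_zero : T ≠ 0 := by
  unfold T
  simp

lemma tsum_fw : ∑' x, fw x = T := by
  unfold fw T
  rw [ENNReal.tsum_add, ENNReal.tsum_add, ENNReal.tsum_comm]
  simp only [tsum_ite_eq]
  norm_num

lemma fw_neg (x : A) : fw (-x) = fw x := by
  unfold fw
  have h1 : (-x = ((1 : ℤ), (0 : ℕ →₀ ZMod 2))) ↔ (x = ((-1 : ℤ), (0 : ℕ →₀ ZMod 2))) := by
    rw [neg_eq_iff_eq_neg]; simp
  have h2 : (-x = ((-1 : ℤ), (0 : ℕ →₀ ZMod 2))) ↔ (x = ((1 : ℤ), (0 : ℕ →₀ ZMod 2))) := by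
    rw [neg_eq_iff_eq_neg]; simp
  have h3 : ∀ j, (-x = ((0 : ℤ), bv j)) ↔ (x = ((0 : ℤ), bv j)) := by
    intro j
    rw [neg_eq_iff_eq_neg]; simp [neg_bv]
  simp only [h1, h2, h3]
  ring

lemma fw_line : fw ((1 : ℤ), (0 : ℕ →₀ ZMod 2)) = 1 := by
  unfold fw
  simp [(bv_ne_zero _).symm]
  
lemma fw_rung (j : ℕ) : fw ((0 : ℤ), bv j) = wt j := by
  unfold fw
  have : ∀ i, (((0 : ℤ), bv j) = ((0 : ℤ), bv i)) ↔ j = i := by
    intro i
    simp [bv_injective.eq_iff]
  simp only [this]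
  simp

/-- nearest neighbour relation -/
def Nb (x y : A) : Prop :=
  y - x = ((1 : ℤ), (0 : ℕ →₀ ZMod 2)) ∨ y - x = ((-1 : ℤ), (0 : ℕ →₀ ZMod 2)) ∨
    ∃ j, y - x = ((0 : ℤ), bv j)

lemma fw_eq_zero_of_not_nb {x y : A} (h : ¬ Nb x y) : fw (y - x) = 0 := by
  unfold Nb at h
  push Not at h
  unfold fw
  simp [h.1, h.2.1, h.2.2]

/-- the probability mass function on the group -/
noncomputable def pm : PMF Γ := 
  PMF.normalize (fun g : Γ => fw (Multiplicative.toAdd g)) 
    (by 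
      have : ∑' g : Γ, fw (Multiplicative.toAdd g) = T := by
        rw [← tsum_fw]; exact Multiplicative.toAdd.tsum_eq fw
      rw [this]; exact T_ne_zero) 
    (by 
      have : ∑' g : Γ, fw (Multiplicative.toAdd g) = T := by
        rw [← tsum_fw]; exact Multiplicative.toAdd.tsum_eq fw
      rw [this]; exact T_ne_top)

lemma pm_apply (g : Γ) : pm g = fw (Multiplicative.toAdd g) * T⁻¹ := by
  unfold pm
  rw [PMF.normalize_apply]
  have : ∑' g : Γ, fw (Multiplicative.toAdd g) = T := by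
        rw [← tsum_fw]; exact Multiplicative.toAdd.tsum_eq fw
  rw [this]

lemma wt_ne_zero (j : ℕ) : wt j ≠ 0 := by
  unfold wt
  simp

lemma mem_support_line : Multiplicative.ofAdd (((1 : ℤ), (0 : ℕ →₀ ZMod 2)) : A) ∈ pm.support := by
  rw [PMF.mem_support_iff, pm_apply]
  simp [fw_line, T_ne_top]

lemma mem_support_rung (j : ℕ) : 
    Multiplicative.ofAdd (((0 : ℤ), bv j) : A) ∈ pm.support := by
  rw [PMF.mem_support_iff, pm_apply]
  simp [fw_rung, T_ne_top, wt_ne_zero]

lemma closure_support : Subgroup.closure pm.support = ⊤ := by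
  rw [eq_top_iff]
  rintro g -
  obtain ⟨x, rfl⟩ := Multiplicative.ofAdd.surjective g
  obtain ⟨z, α⟩ := x
  have h1 : Multiplicative.ofAdd ((z, 0) : A) ∈ Subgroup.closure pm.support := by
    have : Multiplicative.ofAdd ((z, 0) : A) 
        = Multiplicative.ofAdd (((1 : ℤ), (0 : ℕ →₀ ZMod 2)) : A) ^ z := by
      rw [← ofAdd_zsmul]
      congr 1
      simp
    rw [this]
    exact Subgroup.zpow_mem _ (Subgroup.subset_closure mem_support_line) z
  have h2 : Multiplicative.ofAdd ((0, α) : A) ∈ Subgroup.closure pm.support := by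
    induction α using Finsupp.induction with
    | zero => exact Subgroup.one_mem _
    | single_add j b f hj hb ih =>
      have hb1 : b = 1 := by
        revert hb; revert b; decide
      subst hb1
      have : Multiplicative.ofAdd ((0, Finsupp.single j 1 + f) : A) 
        = Multiplicative.ofAdd (((0 : ℤ), bv j) : A) * Multiplicative.ofAdd ((0, f) : A) := by
        rw [← ofAdd_add]
        congr 1
      rw [this]
      exact Subgroup.mul_mem _ (Subgroup.subset_closure (mem_support_rung j)) ih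
  have : Multiplicative.ofAdd ((z, α) : A) 
      = Multiplicative.ofAdd ((z, 0) : A) * Multiplicative.ofAdd ((0, α) : A) := by
    rw [← ofAdd_add]
    congr 1
    simp
  rw [this]
  exact Subgroup.mul_mem _ h1 h2

/-- the generating measure of the counterexample -/
noncomputable def gm : GeneratingMeasure Γ where
  toPMF := pm
  symm := fun g => by rw [pm_apply, pm_apply, toAdd_inv, fw_neg]
  gen := closure_support

end Pool.Agent.Lib.MP_1905b6_pr
end

section

section

/-!
Finite cubes in `⨁ ℤ/2`.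
-/

open MeasureTheory ProbabilityTheory
open scoped ENNReal NNReal

namespace Pool.Agent.Lib.MP_1905b6_pr

/-- The coset of the span of the first `j` basis vectors through `α`. -/
noncomputable def cube : ℕ → (ℕ →₀ ZMod 2) → Finset (ℕ →₀ ZMod 2)
  | 0, α => {α}
  | (j + 1), α => cube j α ∪ cube j (α + bv j)

lemma bv_apply (i j : ℕ) : bv i j = if i = j then 1 else 0 := by
  unfold bv
  rw [Finsupp.single_apply]

lemma mem_cube (j : ℕ) : ∀ (α β : ℕ →₀ ZMod 2), β ∈ cube j α ↔ ∀ i, j ≤ i → β i = α i := by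
  induction j with
  | zero =>
    intro α β
    simp only [cube, Finset.mem_singleton, zero_le, true_implies]
    exact Finsupp.ext_iff
  | succ j ih =>
    intro α β
    simp only [cube, Finset.mem_union, ih, Finsupp.add_apply, bv_apply]
    constructor
    · rintro (h | h) i hi
      · exact h i (by omega)
      · have := h i (by omega)
        rw [this, if_neg (by omega)]; simp
    · intro h
      have key : ∀ a b : ZMod 2, a = b ∨ a = b + 1 := by decide
      rcases key (β j) (α j) with hj | hj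
      · left
        intro i hi
        rcases hi.eq_or_lt with rfl | hi
        · exact hj
        · exact h i hi
      · right
        intro i hi
        rcases hi.eq_or_lt with rfl | hi
        · simpa using hj
        · rw [h i hi, if_neg (by omega)]; simp

lemma self_mem_cube (j : ℕ) (α : ℕ →₀ ZMod 2) : α ∈ cube j α := by
  rw [mem_cube]; intros; rfl

lemma cube_disjoint (j : ℕ) (α : ℕ →₀ ZMod 2) : Disjoint (cube j α) (cube j (α + bv j)) := by
  rw [Finset.disjoint_left]
  intro β h1 h2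
  rw [mem_cube] at h1 h2
  have a := h1 j le_rfl
  have b := h2 j le_rfl
  rw [a, Finsupp.add_apply, bv_apply, if_pos rfl] at b
  simp at b

lemma card_cube (j : ℕ) : ∀ (α : ℕ →₀ ZMod 2), (cube j α).card = 2 ^ j := by
  induction j with
  | zero => intro α; simp [cube]
  | succ j ih =>
    intro α
    rw [cube, Finset.card_union_of_disjoint (cube_disjoint j α), ih, ih]
    ring

/-- A set closed under the first `j` directions contains the cube of each of its points. -/
lemma cube_subset_of_closed (j : ℕ) (P : (ℕ →₀ ZMod 2) → Prop) :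
    ∀ (α : ℕ →₀ ZMod 2), P α → 
      (∀ β ∈ cube j α, P β → ∀ i < j, P (β + bv i)) → ∀ β ∈ cube j α, P β := by
  induction j with
  | zero =>
    intro α h0 _ β hβ
    simp only [cube, Finset.mem_singleton] at hβ
    rw [hβ]; exact h0
  | succ j ih =>
    intro α h0 hc β hβ
    rw [cube, Finset.mem_union] at hβ
    have h1 : ∀ β ∈ cube j α, P β := by
      apply ih α h0
      intro β hβ hP i hi
      exact hc β (by rw [cube, Finset.mem_union]; exact Or.inl hβ) hP i (by omega)
    rcases hβ with hβ | hβ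
    · exact h1 β hβ
    · refine ih (α + bv j) ?_ ?_ β hβ
      · exact hc α (self_mem_cube _ _) h0 j (by omega)
      · intro β hβ hP i hi
        exact hc β (by rw [cube, Finset.mem_union]; exact Or.inr hβ) hP i (by omega)

lemma wt_antitone : Antitone wt := by
  intro i j hij
  unfold wt
  apply pow_le_pow_right_of_le_one' (by simp)
  have : 2 ^ (i + 1) ≤ 2 ^ (j + 1) := Nat.pow_le_pow_right (by norm_num) (by omega)
  omega

/-- generic lower bound for the boundary by marked points -/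
lemma boundary_ge (S R : Finset Γ) (κ : ℝ≥0∞) (hRS : R ⊆ S) 
    (hR : ∀ g ∈ R, ∃ h, h ∉ S ∧ κ ≤ pm (g⁻¹ * h)) :
    (R.card : ℝ≥0∞) * κ ≤ boundary gm S := by
  unfold boundary
  calc (R.card : ℝ≥0∞) * κ = ∑ g ∈ R, κ := by simp
    _ ≤ ∑ g ∈ R, ∑' h : {h : Γ // h ∉ S}, gm.toPMF (g⁻¹ * h.1) := by
        apply Finset.sum_le_sum
        intro g hg
        obtain ⟨h, hh, hk⟩ := hR g hg
        exact hk.trans (ENNReal.le_tsum (f := fun h : {h : Γ // h ∉ S} => gm.toPMF (g⁻¹ * h.1)) ⟨h, hh⟩)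
    _ ≤ _ := Finset.sum_le_sum_of_subset hRS

/-- the lines hit by `S` -/
noncomputable def lines (S : Finset Γ) : Finset (ℕ →₀ ZMod 2) :=
  S.image (fun g => (Multiplicative.toAdd g).2)

lemma boundary_ge_lines (S : Finset Γ) : ((lines S).card : ℝ≥0∞) * T⁻¹ ≤ boundary gm S := by
  classical
  set R : Finset Γ := S.filter 
    (fun g => g * Multiplicative.ofAdd (((1 : ℤ), (0 : ℕ →₀ ZMod 2)) : A) ∉ S) with hR
  have h1 : lines S ⊆ R.image (fun g => (Multiplicative.toAdd g).2) := by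
    intro β hβ
    -- choose the rightmost point on the line
    have hne : ((S.filter (fun g => (Multiplicative.toAdd g).2 = β))).Nonempty := by
      unfold lines at hβ
      rw [Finset.mem_image] at hβ
      obtain ⟨g, hg, hgβ⟩ := hβ
      exact ⟨g, by simp [hg, hgβ]⟩
    obtain ⟨g, hg, hmax⟩ := Finset.exists_max_image _ (fun g => (Multiplicative.toAdd g).1) hne
    rw [Finset.mem_filter] at hg
    rw [Finset.mem_image]
    refine ⟨g, ?_, hg.2⟩
    rw [hR, Finset.mem_filter]
    refine ⟨hg.1, fun hcon => ?_⟩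
    have := hmax (g * Multiplicative.ofAdd (((1 : ℤ), (0 : ℕ →₀ ZMod 2)) : A)) (by
      rw [Finset.mem_filter]
      refine ⟨hcon, ?_⟩
      rw [toAdd_mul, toAdd_ofAdd, Prod.snd_add, hg.2]; simp)
    rw [toAdd_mul, toAdd_ofAdd, Prod.fst_add] at this
    simp at this
  have h2 : (lines S).card ≤ R.card := (Finset.card_le_card h1).trans Finset.card_image_le
  calc ((lines S).card : ℝ≥0∞) * T⁻¹ ≤ (R.card : ℝ≥0∞) * T⁻¹ := by gcongr
    _ ≤ _ := by
      apply boundary_ge S R
      · exact Finset.filter_subset _ _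
      · intro g hg
        rw [hR, Finset.mem_filter] at hg
        refine ⟨_, hg.2, ?_⟩
        rw [inv_mul_cancel_left, pm_apply, toAdd_ofAdd, fw_line, one_mul]

lemma boundary_ge_cube (S : Finset Γ) (j : ℕ) (hj : (lines S).card < 2 ^ (j + 1)) : 
    (S.card : ℝ≥0∞) ≤ 2 ^ (j + 1) * (T * ((wt j)⁻¹ * boundary gm S)) := by
  classical
  set R : Finset Γ := S.filter 
    (fun g => ∃ i < j + 1, g * Multiplicative.ofAdd (((0 : ℤ), bv i) : A) ∉ S) with hR
  -- S is covered by the cubes of the points of R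
  have h1 : S ⊆ R.biUnion (fun t => (cube (j + 1) (Multiplicative.toAdd t).2).image 
      (fun β => Multiplicative.ofAdd (((Multiplicative.toAdd t).1, β) : A))) := by
    intro g hg
    by_contra hcon
    -- then the cube through `g` is inside `S`
    have hsub : ∀ β ∈ cube (j + 1) (Multiplicative.toAdd g).2, 
        Multiplicative.ofAdd (((Multiplicative.toAdd g).1, β) : A) ∈ S := by
      apply cube_subset_of_closed (j + 1) 
        (fun β => Multiplicative.ofAdd (((Multiplicative.toAdd g).1, β) : A) ∈ S)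
      · exact hg
      · intro β hβ hβS i hi
        by_contra hnot
        apply hcon
        rw [Finset.mem_biUnion]
        refine ⟨Multiplicative.ofAdd (((Multiplicative.toAdd g).1, β) : A), ?_, ?_⟩
        · rw [hR, Finset.mem_filter]
          refine ⟨hβS, i, hi, ?_⟩
          rw [← ofAdd_add]
          have : (((Multiplicative.toAdd g).1, β) : A) + ((0 : ℤ), bv i) 
            = ((Multiplicative.toAdd g).1, β + bv i) := by simp
          rw [this]
          exact hnot
        · rw [Finset.mem_image]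
          refine ⟨(Multiplicative.toAdd g).2, ?_, rfl⟩
          rw [mem_cube] at hβ ⊢
          intro i hi
          exact (hβ i hi).symm
    have : cube (j + 1) (Multiplicative.toAdd g).2 ⊆ lines S := by
      intro β hβ
      unfold lines
      rw [Finset.mem_image]
      exact ⟨_, hsub β hβ, rfl⟩
    have := Finset.card_le_card this
    rw [card_cube] at this
    omega
  have h2 : S.card ≤ R.card * 2 ^ (j + 1) := by
    refine (Finset.card_le_card h1).trans (Finset.card_biUnion_le_card_mul _ _ _ ?_)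
    intro t ht
    exact Finset.card_image_le.trans (card_cube _ _).le
  have h3 : (R.card : ℝ≥0∞) * (wt j * T⁻¹) ≤ boundary gm S := by
    apply boundary_ge S R
    · exact Finset.filter_subset _ _
    · intro g hg
      rw [hR, Finset.mem_filter] at hg
      obtain ⟨i, hi, hi2⟩ := hg.2
      refine ⟨_, hi2, ?_⟩
      rw [inv_mul_cancel_left, pm_apply, toAdd_ofAdd, fw_rung]
      gcongr
      exact wt_antitone (by omega)
  have hw : wt j ≠ ∞ := by unfold wt; simp
  have hw0 : wt j ≠ 0 := wt_ne_zero j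
  have h4 : (R.card : ℝ≥0∞) ≤ T * ((wt j)⁻¹ * boundary gm S) := by
    calc (R.card : ℝ≥0∞) = T * ((wt j)⁻¹ * ((R.card : ℝ≥0∞) * (wt j * T⁻¹))) := by
          have e1 : T * T⁻¹ = 1 := ENNReal.mul_inv_cancel T_ne_zero T_ne_top
          have e2 : (wt j)⁻¹ * wt j = 1 := ENNReal.inv_mul_cancel hw0 hw
          calc (R.card : ℝ≥0∞) = (R.card : ℝ≥0∞) * (T * T⁻¹) * ((wt j)⁻¹ * wt j) := by
                rw [e1, e2]; simp
            _ = _ := by ring
      _ ≤ _ := by gcongr
  calc (S.card : ℝ≥0∞) ≤ ((R.card * 2 ^ (j + 1) : ℕ) : ℝ≥0∞) := by exact_mod_cast h2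
    _ = 2 ^ (j + 1) * (R.card : ℝ≥0∞) := by push_cast; ring
    _ ≤ _ := by gcongr

end Pool.Agent.Lib.MP_1905b6_pr
end

section

/-!
Logarithmic isoperimetry for the example.
-/

open MeasureTheory ProbabilityTheory
open scoped ENNReal NNReal

namespace Pool.Agent.Lib.MP_1905b6_pr

lemma two_mul_add_one_le (j : ℕ) : 2 * j + 1 ≤ 2 ^ (j + 1) := by
  induction j with
  | zero => norm_num
  | succ j ih => rw [pow_succ]; have : 1 ≤ 2 ^ j := Nat.one_le_two_pow; rw [pow_succ] at ih ⊢; omega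

theorem log_iso : ∃ c : ℝ, 0 < c ∧ ∀ S : Finset Γ, S.Nonempty → 
    ENNReal.ofReal (c * Real.log S.card) < boundary gm S := by
  have hT : 0 < T.toReal := ENNReal.toReal_pos T_ne_zero T_ne_top
  refine ⟨(4 * T.toReal)⁻¹, by positivity, fun S hS => ?_⟩
  by_cases htop : boundary gm S = ∞
  · rw [htop]; exact ENNReal.ofReal_lt_top
  have hTB : T * boundary gm S ≠ ∞ := ENNReal.mul_ne_top T_ne_top htop
  set b : ℝ := (T * boundary gm S).toReal with hb
  have hbT : b = T.toReal * (boundary gm S).toReal := by rw [hb, ENNReal.toReal_mul]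
  set m : ℕ := (lines S).card with hm
  have hm1 : 1 ≤ m := by
    rw [hm, Nat.one_le_iff_ne_zero, Finset.card_ne_zero]
    exact hS.image _
  -- first bound
  have hmb : (m : ℝ) ≤ b := by
    have h := boundary_ge_lines S
    have : (m : ℝ≥0∞) ≤ T * boundary gm S := by
      calc (m : ℝ≥0∞) = T * ((m : ℝ≥0∞) * T⁻¹) := by
            rw [mul_comm, mul_assoc, ENNReal.inv_mul_cancel T_ne_zero T_ne_top, mul_one]
        _ ≤ _ := by gcongr
    have := ENNReal.toReal_mono hTB this
    rw [hbT]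
    simpa using this
  -- second bound
  have hN : (S.card : ℝ) ≤ 16 ^ m * b := by
    have hj1 : 2 ^ (Nat.log 2 m) ≤ m := Nat.pow_log_le_self 2 (by omega)
    have hj2 : m < 2 ^ (Nat.log 2 m + 1) := Nat.lt_pow_succ_log_self (by norm_num) m
    set j := Nat.log 2 m with hj
    have h := boundary_ge_cube S j hj2
    have h' : (S.card : ℝ≥0∞) ≤ 16 ^ m * (T * boundary gm S) := by
      refine h.trans ?_
      have e : (2 : ℝ≥0∞) ^ (j + 1) * (T * ((wt j)⁻¹ * boundary gm S)) 
          = (2 : ℝ≥0∞) ^ (j + 1 + (2 ^ (j + 1) + j)) * (T * boundary gm S) := by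
        have : (wt j)⁻¹ = (2 : ℝ≥0∞) ^ (2 ^ (j + 1) + j) := by
          unfold wt
          rw [← ENNReal.inv_pow, inv_inv]
        rw [this, pow_add (2 : ℝ≥0∞) (j + 1)]
        ring
      rw [e]
      have : (2 : ℝ≥0∞) ^ (j + 1 + (2 ^ (j + 1) + j)) ≤ 16 ^ m := by
        have e16 : (16 : ℝ≥0∞) ^ m = 2 ^ (4 * m) := by
          rw [pow_mul]; norm_num
        rw [e16]
        apply pow_le_pow_right₀ (by norm_num)
        have := two_mul_add_one_le j
        have e4 : 2 ^ (j + 1) = 2 * 2 ^ j := by rw [pow_succ]; ring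
        omega
      gcongr
    have h16 : (16 : ℝ≥0∞) ^ m * (T * boundary gm S) ≠ ∞ := 
      ENNReal.mul_ne_top (by simp) hTB
    have := ENNReal.toReal_mono h16 h'
    rw [ENNReal.toReal_mul] at this
    rw [hbT]
    simpa using this
  have hN0 : (0 : ℝ) < S.card := by exact_mod_cast hS.card_pos
  have hb1 : 1 ≤ b := le_trans (by exact_mod_cast hm1) hmb
  have hlog : Real.log S.card ≤ m * Real.log 16 + Real.log b := by
    calc Real.log S.card ≤ Real.log (16 ^ m * b) := Real.log_le_log hN0 hN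
      _ = _ := by rw [Real.log_mul (by positivity) (by positivity), Real.log_pow]
  have hlogb : Real.log b ≤ b - 1 := Real.log_le_sub_one_of_pos (by positivity)
  have hlog16 : Real.log 16 < 3 := by
    have : Real.log 16 = 4 * Real.log 2 := by
      rw [show (16 : ℝ) = 2 ^ 4 by norm_num, Real.log_pow]; norm_num
    rw [this]
    have := Real.log_two_lt_d9
    linarith
  have hlog16' : 0 < Real.log 16 := Real.log_pos (by norm_num)
  have hfin : Real.log S.card < 4 * b := by
    have : m * Real.log 16 ≤ b * 3 := by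
      apply mul_le_mul hmb hlog16.le hlog16'.le (by positivity)
    linarith
  rw [ENNReal.ofReal_lt_iff_lt_toReal _ htop]
  · rw [hbT] at hfin
    rw [inv_mul_lt_iff₀ (by positivity)]
    linarith
  · have : 0 ≤ Real.log S.card := Real.log_nonneg (by exact_mod_cast hS.card_pos)
    positivity

end Pool.Agent.Lib.MP_1905b6_pr
end

section

/-!
Independence tools for the percolation law.
-/

open MeasureTheory ProbabilityTheory
open scoped ENNReal NNReal

namespace Pool.Agent.Lib.MP_1905b6_pr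

/-- index set of unordered pairs -/
abbrev E := {e : Sym2 Γ // ¬ e.IsDiag}

/-- configuration space -/
abbrev Ω := E → ℕ

/-- the rate of an edge -/
noncomputable def rate (lam : ℝ≥0) (e : E) : ℝ≥0 := lam * edgeMass gm e.1

noncomputable instance (lam : ℝ≥0) : IsProbabilityMeasure (percLaw gm lam) := by
  unfold percLaw; infer_instance

/-- `A` depends only on the coordinates in `D` -/
def Dep (D : Finset E) (A : Set Ω) : Prop := 
  ∀ ω ω' : Ω, (∀ e ∈ D, ω e = ω' e) → ω ∈ A → ω' ∈ A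

lemma Dep.compl {D : Finset E} {A : Set Ω} (h : Dep D A) : Dep D Aᶜ := by
  intro ω ω' hω hA hA'
  exact hA (h ω' ω (fun e he => (hω e he).symm) hA')

lemma Dep.inter {D D' : Finset E} {A A' : Set Ω} [DecidableEq E] (h : Dep D A) (h' : Dep D' A') : 
    Dep (D ∪ D') (A ∩ A') := by
  intro ω ω' hω hA
  exact ⟨h ω ω' (fun e he => hω e (Finset.mem_union_left _ he)) hA.1,
    h' ω ω' (fun e he => hω e (Finset.mem_union_right _ he)) hA.2⟩

lemma Dep.eq_preimage {D : Finset E} {A : Set Ω} (h : Dep D A) :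
    A = (fun (ω : Ω) (e : D) => ω e) ⁻¹' ((fun (ω : Ω) (e : D) => ω e) '' A) := by
  ext ω
  constructor
  · intro hω; exact ⟨ω, hω, rfl⟩
  · rintro ⟨ω', hω', he⟩
    refine h ω' ω (fun e hD => ?_) hω'
    exact congrFun he ⟨e, hD⟩

lemma Dep.measurableSet {D : Finset E} {A : Set Ω} (h : Dep D A) : MeasurableSet A := by
  rw [h.eq_preimage]
  apply (measurable_pi_iff.2 (fun e => measurable_pi_apply _) :
    Measurable (fun (ω : Ω) (e : D) => ω e))
  exact MeasurableSet.of_discrete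

lemma indep_of_dep (lam : ℝ≥0) {D1 D2 : Finset E} {A1 A2 : Set Ω} (hd : Disjoint D1 D2)
    (h1 : Dep D1 A1) (h2 : Dep D2 A2) : 
    (percLaw gm lam).real (A1 ∩ A2) = (percLaw gm lam).real A1 * (percLaw gm lam).real A2 := by
  have hI : iIndepFun (fun (e : E) (ω : Ω) => ω e) (percLaw gm lam) := by
    unfold percLaw
    exact iIndepFun_infinitePi (X := fun (_ : E) (n : ℕ) => n) (fun _ => measurable_id)
  have hI2 := hI.indepFun_finset D1 D2 hd (fun e => measurable_pi_apply e)
  have := hI2.measure_inter_preimage_eq_mul 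
    ((fun (ω : Ω) (e : D1) => ω e) '' A1) ((fun (ω : Ω) (e : D2) => ω e) '' A2) 
    MeasurableSet.of_discrete MeasurableSet.of_discrete
  rw [← h1.eq_preimage, ← h2.eq_preimage] at this
  rw [measureReal_def, this, ENNReal.toReal_mul]
  rfl

lemma prob_zero_on (lam : ℝ≥0) (D : Finset E) :
    (percLaw gm lam).real {ω | ∀ e ∈ D, ω e = 0} = Real.exp (-∑ e ∈ D, (rate lam e : ℝ)) := by
  have : {ω : Ω | ∀ e ∈ D, ω e = 0} = Set.pi (D : Set E) (fun _ => {0}) := by
    ext ω; simp [Set.mem_pi]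
  rw [measureReal_def, this]
  unfold percLaw
  rw [Measure.infinitePi_pi _ (fun _ _ => MeasurableSet.singleton 0), ENNReal.toReal_prod,
    ← Finset.sum_neg_distrib, Real.exp_sum]
  apply Finset.prod_congr rfl
  intro e _
  rw [poissonMeasure_singleton]
  simp [rate, Real.exp_nonneg]

lemma prob_ne_zero_le (lam : ℝ≥0) (e : E) :
    (percLaw gm lam) {ω | ω e ≠ 0} ≤ (rate lam e : ℝ≥0∞) := by
  have h1 : (percLaw gm lam).real {ω | ω e = 0} = Real.exp (-(rate lam e : ℝ)) := by
    have := prob_zero_on lam {e}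
    simpa using this
  have hm : MeasurableSet {ω : Ω | ω e = 0} := 
    (measurable_pi_apply e) (MeasurableSet.singleton 0)
  have h2 : (percLaw gm lam).real {ω | ω e ≠ 0} = 1 - Real.exp (-(rate lam e : ℝ)) := by
    have : {ω : Ω | ω e ≠ 0} = {ω : Ω | ω e = 0}ᶜ := rfl
    rw [this, probReal_compl_eq_one_sub hm, h1]
  have h3 : (percLaw gm lam).real {ω | ω e ≠ 0} ≤ (rate lam e : ℝ) := by
    rw [h2]
    have := Real.add_one_le_exp (-(rate lam e : ℝ))
    linarith
  rw [measureReal_def] at h3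
  have h4 := ENNReal.ofReal_le_ofReal h3
  rw [ENNReal.ofReal_toReal (measure_ne_top _ _)] at h4
  simpa using h4

/-- pairs inside a finite vertex set -/
noncomputable def inner (B : Finset Γ) : Finset E := by
  classical
  exact (B.sym2).subtype (fun e => ¬ e.IsDiag)

lemma mem_inner {B : Finset Γ} {x y : Γ} (h : ¬ (s(x, y)).IsDiag) : 
    (⟨s(x, y), h⟩ : E) ∈ inner B ↔ x ∈ B ∧ y ∈ B := by
  unfold inner
  rw [Finset.mem_subtype, Finset.mk_mem_sym2_iff]

lemma inner_disjoint {B B' : Finset Γ} (h : Disjoint B B') : Disjoint (inner B) (inner B') := by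
  rw [Finset.disjoint_left] at h ⊢
  rintro ⟨e, he⟩ h1 h2
  induction e using Sym2.ind with
  | _ x y =>
    rw [mem_inner] at h1 h2
    exact h h1.1 h2.1

end Pool.Agent.Lib.MP_1905b6_pr
end

section

/-!
Cuts of boxes and their recursion.
-/

open MeasureTheory ProbabilityTheory
open scoped ENNReal NNReal

namespace Pool.Agent.Lib.MP_1905b6_pr

/-- first coordinate -/
def cx (x : Γ) : ℤ := (Multiplicative.toAdd x).1

/-- second coordinate -/
def cy (x : Γ) : ℕ →₀ ZMod 2 := (Multiplicative.toAdd x).2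

/-- neighbour relation on the group -/
def NbG (x y : Γ) : Prop := Nb (Multiplicative.toAdd x) (Multiplicative.toAdd y)

/-- box -/
noncomputable def box (j : ℕ) (α : ℕ →₀ ZMod 2) (u : ℤ) (l : ℕ) : Finset Γ :=
  ((Finset.Ico u (u + l)) ×ˢ (cube j α)).map Multiplicative.ofAdd.toEmbedding

lemma mem_box {j : ℕ} {α : ℕ →₀ ZMod 2} {u : ℤ} {l : ℕ} {x : Γ} :
    x ∈ box j α u l ↔ (u ≤ cx x ∧ cx x < u + l) ∧ cy x ∈ cube j α := by
  unfold box cx cy
  rw [Finset.mem_map]
  constructor
  · rintro ⟨a, ha, rfl⟩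
    rw [Finset.mem_product, Finset.mem_Ico] at ha
    exact ha
  · intro h
    refine ⟨Multiplicative.toAdd x, ?_, rfl⟩
    rw [Finset.mem_product, Finset.mem_Ico]
    exact h

lemma card_box (j : ℕ) (α : ℕ →₀ ZMod 2) (u : ℤ) (l : ℕ) : (box j α u l).card = l * 2 ^ j := by
  unfold box
  rw [Finset.card_map, Finset.card_product, card_cube]
  simp

/-- the event that the box has a cut -/
def Cut (j : ℕ) (α : ℕ →₀ ZMod 2) (u : ℤ) (l : ℕ) : Set Ω :=
  {ω | ∃ W : Set Γ, W ⊆ box j α u l ∧ (∀ x ∈ box j α u l, cx x = u → x ∈ W) ∧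
    (∀ x ∈ W, cx x ≠ u + l - 1) ∧ 
    ∀ x ∈ W, ∀ y ∈ box j α u l, y ∉ W → NbG x y → ¬ (openGraph ω).Adj x y}

lemma adj_congr {D : Finset E} {ω ω' : Ω} (h : ∀ e ∈ D, ω e = ω' e) {x y : Γ} 
    (hD : ∀ hne : ¬ (s(x, y)).IsDiag, (⟨s(x, y), hne⟩ : E) ∈ D) :
    (openGraph ω').Adj x y → (openGraph ω).Adj x y := by
  rintro ⟨hne, hpos⟩
  refine ⟨hne, ?_⟩
  rw [h _ (hD hne)]; exact hpos

lemma dep_cut (j : ℕ) (α : ℕ →₀ ZMod 2) (u : ℤ) (l : ℕ) : 
    Dep (inner (box j α u l)) (Cut j α u l) := by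
  rintro ω ω' hω ⟨W, h1, h2, h3, h4⟩
  refine ⟨W, h1, h2, h3, fun x hx y hy hyW hN hadj => ?_⟩
  refine h4 x hx y hy hyW hN (adj_congr hω (fun hne => ?_) hadj)
  rw [mem_inner]
  exact ⟨h1 hx, hy⟩

lemma cut_first_half {j : ℕ} {α : ℕ →₀ ZMod 2} {u : ℤ} {l : ℕ} (hl : 0 < l) : 
    Cut j α u l ⊆ Cut j α u (2 * l) := by
  rintro ω ⟨W, h1, h2, h3, h4⟩
  refine ⟨W, ?_, ?_, ?_, ?_⟩
  · intro x hx
    have := h1 hx
    rw [Finset.mem_coe, mem_box] at this ⊢
    push_cast
    refine ⟨⟨this.1.1, by omega⟩, this.2⟩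
  · intro x hx hxu
    rw [mem_box] at hx
    apply h2 x _ hxu
    rw [mem_box]
    exact ⟨⟨by omega, by omega⟩, hx.2⟩
  · intro x hx
    have := h1 hx
    rw [Finset.mem_coe, mem_box] at this
    push_cast
    omega
  · intro x hx y hy hyW hN
    by_cases hyb : y ∈ box j α u l
    · exact h4 x hx y hyb hyW hN
    · exfalso
      have hxb := h1 hx
      have hx3 := h3 x hx
      rw [Finset.mem_coe, mem_box] at hxb
      rw [mem_box] at hy hyb
      have hy1 : u + l ≤ cx y := by
        by_contra hcon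
        exact hyb ⟨⟨hy.1.1, by omega⟩, hy.2⟩
      have hd : cx y - cx x ≤ 1 := by
        unfold NbG Nb at hN
        rcases hN with h | h | ⟨i, h⟩
        · have := congrArg Prod.fst h; simp only [Prod.fst_sub] at this; unfold cx; omega
        · have := congrArg Prod.fst h; simp only [Prod.fst_sub] at this; unfold cx; omega
        · have := congrArg Prod.fst h; simp only [Prod.fst_sub] at this; unfold cx; omega
      omega

lemma NbG.abs_le {x y : Γ} (hN : NbG x y) : cx y - cx x ≤ 1 ∧ cx x - cx y ≤ 1 := by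
  unfold NbG Nb at hN
  rcases hN with h | h | ⟨i, h⟩ <;>
  · have := congrArg Prod.fst h; simp only [Prod.fst_sub] at this; unfold cx; omega

lemma cut_second_half {j : ℕ} {α : ℕ →₀ ZMod 2} {u : ℤ} {l : ℕ} (hl : 0 < l) : 
    Cut j α (u + l) l ⊆ Cut j α u (2 * l) := by
  rintro ω ⟨W, h1, h2, h3, h4⟩
  refine ⟨W ∪ box j α u l, ?_, ?_, ?_, ?_⟩
  · rintro x (hx | hx)
    · have := h1 hx
      rw [Finset.mem_coe, mem_box] at this ⊢
      push_cast
      exact ⟨⟨by omega, by omega⟩, this.2⟩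
    · rw [Finset.mem_coe, mem_box] at hx ⊢
      push_cast
      exact ⟨⟨by omega, by omega⟩, hx.2⟩
  · intro x hx hxu
    right
    rw [mem_box] at hx
    rw [Finset.mem_coe, mem_box]
    exact ⟨⟨by omega, by omega⟩, hx.2⟩
  · rintro x (hx | hx)
    · have := h3 x hx
      push_cast
      omega
    · rw [Finset.mem_coe, mem_box] at hx
      push_cast
      omega
  · rintro x hx y hy hyW hN
    have hyW1 : y ∉ W := fun h => hyW (Or.inl h)
    have hyW2 : y ∉ box j α u l := fun h => hyW (Or.inr h)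
    rw [mem_box] at hy hyW2
    push_cast at hy
    have hy1 : u + l ≤ cx y := by
      by_contra hcon
      exact hyW2 ⟨⟨hy.1.1, by omega⟩, hy.2⟩
    have hyb : y ∈ box j α (u + l) l := by
      rw [mem_box]; exact ⟨⟨hy1, by omega⟩, hy.2⟩
    rcases hx with hx | hx
    · exact h4 x hx y hyb hyW1 hN
    · exfalso
      rw [Finset.mem_coe, mem_box] at hx
      have := hN.abs_le
      exact hyW1 (h2 y hyb (by omega))

lemma box_disjoint_halves (j : ℕ) (α : ℕ →₀ ZMod 2) (u : ℤ) (l : ℕ) :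
    Disjoint (box j α u l) (box j α (u + l) l) := by
  rw [Finset.disjoint_left]
  intro x h1 h2
  rw [mem_box] at h1 h2
  omega

/-- lower bound for the probability of a cut, uniformly over all translates -/
def H (lam : ℝ≥0) (j l : ℕ) (p : ℝ) : Prop :=
  ∀ (α : ℕ →₀ ZMod 2) (u : ℤ), p ≤ (percLaw gm lam).real (Cut j α u l)

lemma H_double {lam : ℝ≥0} {j l : ℕ} {p : ℝ} (hl : 0 < l) (hp : p ≤ 1) (h : H lam j l p) : 
    H lam j (2 * l) (1 - (1 - p) ^ 2) := by
  intro α u
  have hd := inner_disjoint (box_disjoint_halves j α u l)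
  have d1 := dep_cut j α u l
  have d2 := dep_cut j α (u + l) l
  have hi := indep_of_dep lam hd d1.compl d2.compl
  have e1 : (percLaw gm lam).real (Cut j α u l)ᶜ ≤ 1 - p := by
    rw [probReal_compl_eq_one_sub d1.measurableSet]
    linarith [h α u]
  have e2 : (percLaw gm lam).real (Cut j α (u + l) l)ᶜ ≤ 1 - p := by
    rw [probReal_compl_eq_one_sub d2.measurableSet]
    linarith [h α (u + l)]
  have e3 : (percLaw gm lam).real ((Cut j α u l)ᶜ ∩ (Cut j α (u + l) l)ᶜ) ≤ (1 - p) ^ 2 := by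
    rw [hi, sq]
    exact mul_le_mul e1 e2 measureReal_nonneg (by linarith)
  have e4 : (percLaw gm lam).real (Cut j α u (2 * l))ᶜ ≤ (1 - p) ^ 2 := by
    refine (measureReal_mono ?_).trans e3
    intro ω hω
    exact ⟨fun h => hω (cut_first_half hl h), fun h => hω (cut_second_half hl h)⟩
  rw [probReal_compl_eq_one_sub (dep_cut j α u (2 * l)).measurableSet] at e4
  linarith

lemma H_iter {lam : ℝ≥0} {j l : ℕ} {p : ℝ} (hl : 0 < l) (hp : p ≤ 1) 
    (h : H lam j l p) (s : ℕ) : H lam j (2 ^ s * l) (1 - (1 - p) ^ (2 ^ s)) := by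
  induction s with
  | zero => simpa using h
  | succ s ih =>
    have h1 : 1 - (1 - p) ^ (2 ^ s) ≤ 1 := by
      have : 0 ≤ (1 - p) ^ (2 ^ s) := pow_nonneg (by linarith) _
      linarith
    have := H_double (by positivity) h1 ih
    have e : 2 * (2 ^ s * l) = 2 ^ (s + 1) * l := by ring
    have e2 : (1 - (1 - (1 - (1 - p) ^ (2 ^ s))) ^ 2) = 1 - (1 - p) ^ (2 ^ (s + 1)) := by
      rw [sub_sub_cancel, ← pow_mul, ← pow_succ]
    rw [e, e2] at this
    exact this

/-- rung edges leaving a box in direction `j` -/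
noncomputable def rungs (B : Finset Γ) (j : ℕ) : Finset E := by
  classical
  exact B.image (fun x => ⟨s(x, x * Multiplicative.ofAdd (((0 : ℤ), bv j) : A)), by
    rw [Sym2.mk_isDiag_iff]
    intro h
    have h := left_eq_mul.1 h
    have := congrArg (fun g : Γ => (Multiplicative.toAdd g).2) h
    exact bv_ne_zero j this⟩)

lemma mem_rungs {B : Finset Γ} {j : ℕ} {e : E} : 
    e ∈ rungs B j ↔ ∃ x ∈ B, e.1 = s(x, x * Multiplicative.ofAdd (((0 : ℤ), bv j) : A)) := by
  unfold rungs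
  rw [Finset.mem_image]
  constructor
  · rintro ⟨x, hx, rfl⟩; exact ⟨x, hx, rfl⟩
  · rintro ⟨x, hx, h⟩; exact ⟨x, hx, Subtype.ext h.symm⟩

lemma card_rungs_le (B : Finset Γ) (j : ℕ) : (rungs B j).card ≤ B.card := by
  unfold rungs
  exact Finset.card_image_le

/-- normalised intensity -/
noncomputable def theta (lam : ℝ≥0) : ℝ≥0 := lam * (T⁻¹).toNNReal

/-- weights as reals -/
noncomputable def wr (j : ℕ) : ℝ≥0 := (2⁻¹ : ℝ≥0) ^ (2 ^ (j + 1) + j)

lemma wt_toNNReal (j : ℕ) : (wt j).toNNReal = wr j := by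
  unfold wt wr
  rw [ENNReal.toNNReal_pow, ENNReal.toNNReal_inv]
  rfl

lemma rate_eq (lam : ℝ≥0) {e : E} {x y : Γ} (h : e.1 = s(x, y)) : 
    rate lam e = theta lam * (fw (Multiplicative.toAdd y - Multiplicative.toAdd x)).toNNReal := by
  unfold rate
  rw [h]
  unfold edgeMass
  rw [Sym2.lift_mk]
  show lam * (pm (x⁻¹ * y)).toNNReal = _
  rw [pm_apply, toAdd_mul, toAdd_inv, neg_add_eq_sub, ENNReal.toNNReal_mul]
  unfold theta
  ring

lemma rate_rung (lam : ℝ≥0) {B : Finset Γ} {j : ℕ} {e : E} (he : e ∈ rungs B j) :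
    rate lam e = theta lam * wr j := by
  rw [mem_rungs] at he
  obtain ⟨x, -, hx⟩ := he
  rw [rate_eq lam hx, toAdd_mul, add_sub_cancel_left, toAdd_ofAdd, fw_rung, wt_toNNReal]

lemma prob_rungs (lam : ℝ≥0) (B : Finset Γ) (j : ℕ) :
    Real.exp (-(theta lam * wr j * B.card)) ≤ 
      (percLaw gm lam).real {ω | ∀ e ∈ rungs B j, ω e = 0} := by
  rw [prob_zero_on]
  apply Real.exp_le_exp.2
  rw [neg_le_neg_iff]
  have : ∑ e ∈ rungs B j, (rate lam e : ℝ) = ∑ e ∈ rungs B j, ((theta lam * wr j : ℝ≥0) : ℝ) := by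
    apply Finset.sum_congr rfl
    intro e he
    rw [rate_rung lam he]
  rw [this, Finset.sum_const, nsmul_eq_mul]
  have h2 : ((rungs B j).card : ℝ) ≤ B.card := by exact_mod_cast card_rungs_le B j
  have h3 : (0 : ℝ) ≤ ((theta lam * wr j : ℝ≥0) : ℝ) := NNReal.coe_nonneg _
  push_cast at h3 ⊢
  nlinarith

lemma box_disjoint_copies (j : ℕ) (α : ℕ →₀ ZMod 2) (u : ℤ) (l : ℕ) :
    Disjoint (box j α u l) (box j (α + bv j) u l) := by
  rw [Finset.disjoint_left]
  intro x h1 h2
  rw [mem_box] at h1 h2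
  exact (Finset.disjoint_left.1 (cube_disjoint j α)) h1.2 h2.2

lemma box_succ (j : ℕ) (α : ℕ →₀ ZMod 2) (u : ℤ) (l : ℕ) (x : Γ) :
    x ∈ box (j + 1) α u l ↔ x ∈ box j α u l ∨ x ∈ box j (α + bv j) u l := by
  rw [mem_box, mem_box, mem_box, cube, Finset.mem_union]
  tauto

/-- neighbours in different copies are joined by a rung in direction `j` -/
lemma rung_of_nb {j : ℕ} {α : ℕ →₀ ZMod 2} {u : ℤ} {l : ℕ} {x y : Γ} (hx : x ∈ box j α u l)
    (hy : y ∈ box j (α + bv j) u l) (hN : NbG x y ∨ NbG y x) : 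
    y = x * Multiplicative.ofAdd (((0 : ℤ), bv j) : A) := by
  rw [mem_box, mem_cube] at hx hy
  have hxj := hx.2 j le_rfl
  have hyj := hy.2 j le_rfl
  rw [Finsupp.add_apply, bv_apply, if_pos rfl] at hyj
  have hne : cy y j ≠ cy x j := by
    rw [hyj, hxj]
    simp
  have key : ∃ i, cx y = cx x ∧ cy y = cy x + bv i := by
    rcases hN with hN | hN
    · unfold NbG Nb at hN
      rcases hN with h | h | ⟨i, h⟩
      · exfalso; apply hne
        have := congrArg Prod.snd h
        rw [Prod.snd_sub, sub_eq_zero] at this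
        unfold cy; rw [this]
      · exfalso; apply hne
        have := congrArg Prod.snd h
        rw [Prod.snd_sub, sub_eq_zero] at this
        unfold cy; rw [this]
      · refine ⟨i, ?_, ?_⟩
        · have := congrArg Prod.fst h
          rw [Prod.fst_sub, sub_eq_zero] at this
          exact this
        · have := congrArg Prod.snd h
          rw [Prod.snd_sub, sub_eq_iff_eq_add'] at this
          exact this
    · unfold NbG Nb at hN
      rcases hN with h | h | ⟨i, h⟩
      · exfalso; apply hne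
        have := congrArg Prod.snd h
        rw [Prod.snd_sub, sub_eq_zero] at this
        unfold cy; rw [this]
      · exfalso; apply hne
        have := congrArg Prod.snd h
        rw [Prod.snd_sub, sub_eq_zero] at this
        unfold cy; rw [this]
      · refine ⟨i, ?_, ?_⟩
        · have := congrArg Prod.fst h
          rw [Prod.fst_sub, sub_eq_zero] at this
          exact this.symm
        · have := congrArg Prod.snd h
          rw [Prod.snd_sub, sub_eq_iff_eq_add'] at this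
          unfold cy
          rw [this, add_assoc]
          simp only [bv_add_self, add_zero]
  obtain ⟨i, h1, h2⟩ := key
  have hij : i = j := by
    by_contra hcon
    apply hne
    rw [h2, Finsupp.add_apply, bv_apply, if_neg hcon, add_zero]
  subst hij
  apply Multiplicative.toAdd.injective
  rw [toAdd_mul, toAdd_ofAdd]
  apply Prod.ext
  · rw [Prod.fst_add]; simpa [cx] using h1
  · rw [Prod.snd_add]; exact h2

lemma cut_succ {j : ℕ} {α : ℕ →₀ ZMod 2} {u : ℤ} {l : ℕ} : 
    (Cut j α u l ∩ Cut j (α + bv j) u l) ∩ {ω | ∀ e ∈ rungs (box j α u l) j, ω e = 0} 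
      ⊆ Cut (j + 1) α u l := by
  rintro ω ⟨⟨⟨W1, a1, a2, a3, a4⟩, ⟨W2, b1, b2, b3, b4⟩⟩, hr⟩
  refine ⟨W1 ∪ W2, ?_, ?_, ?_, ?_⟩
  · rintro x (hx | hx)
    · rw [Finset.mem_coe, box_succ]; exact Or.inl (a1 hx)
    · rw [Finset.mem_coe, box_succ]; exact Or.inr (b1 hx)
  · intro x hx hxu
    rw [box_succ] at hx
    rcases hx with hx | hx
    · exact Or.inl (a2 x hx hxu)
    · exact Or.inr (b2 x hx hxu)
  · rintro x (hx | hx)
    · exact a3 x hx
    · exact b3 x hx
  · intro x hx y hy hyW hN hadj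
    have hyW1 : y ∉ W1 := fun h => hyW (Or.inl h)
    have hyW2 : y ∉ W2 := fun h => hyW (Or.inr h)
    rw [box_succ] at hy
    rcases hx with hx | hx <;> rcases hy with hy | hy
    · exact a4 x hx y hy hyW1 hN hadj
    · have := rung_of_nb (a1 hx) hy (Or.inl hN)
      obtain ⟨hne, hpos⟩ := hadj
      have h0 := hr ⟨s(x, y), hne⟩ (by
        rw [mem_rungs]; exact ⟨x, a1 hx, by show s(x, y) = _; rw [← this]⟩)
      omega
    · have := rung_of_nb hy (b1 hx) (Or.inr hN)
      obtain ⟨hne, hpos⟩ := hadj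
      have h0 := hr ⟨s(x, y), hne⟩ (by
        rw [mem_rungs]; exact ⟨y, hy, by show s(x, y) = _; rw [← this]; exact Sym2.eq_swap⟩)
      omega
    · exact b4 x hx y hy hyW2 hN hadj

lemma dep_rungs (B : Finset Γ) (j : ℕ) : Dep (rungs B j) {ω | ∀ e ∈ rungs B j, ω e = 0} := by
  intro ω ω' hω h e he
  rw [← hω e he]; exact h e he

lemma H_succ {lam : ℝ≥0} {j l : ℕ} {p : ℝ} (hp : 0 ≤ p) (h : H lam j l p) :
    H lam (j + 1) l (p ^ 2 * Real.exp (-(theta lam * wr j * (l * 2 ^ j)))) := by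
  classical
  intro α u
  have d1 := dep_cut j α u l
  have d2 := dep_cut j (α + bv j) u l
  have d3 := dep_rungs (box j α u l) j
  have hd12 := inner_disjoint (box_disjoint_copies j α u l)
  have hd : Disjoint (inner (box j α u l) ∪ inner (box j (α + bv j) u l)) 
      (rungs (box j α u l) j) := by
    rw [Finset.disjoint_left]
    intro e he her
    rw [mem_rungs] at her
    obtain ⟨x, hx, hex⟩ := her
    obtain ⟨e, hne⟩ := e
    simp only at hex
    subst hex
    have hxb : x ∉ box j (α + bv j) u l := Finset.disjoint_left.1 (box_disjoint_copies j α u l) hx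
    have hyb : x * Multiplicative.ofAdd (((0 : ℤ), bv j) : A) ∉ box j α u l := by
      intro hy
      rw [mem_box, mem_cube] at hx hy
      have h1 := hx.2 j le_rfl
      have h2 := hy.2 j le_rfl
      unfold cy at h1 h2
      rw [toAdd_mul, toAdd_ofAdd, Prod.snd_add, Finsupp.add_apply, bv_apply, if_pos rfl, h1] at h2
      simp at h2
    rw [Finset.mem_union, mem_inner, mem_inner] at he
    rcases he with he | he
    · exact hyb he.2
    · exact hxb he.1
  have i12 := indep_of_dep lam hd12 d1 d2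
  have i3 := indep_of_dep lam hd (d1.inter d2) d3
  calc p ^ 2 * Real.exp (-(theta lam * wr j * (l * 2 ^ j))) 
      ≤ ((percLaw gm lam).real (Cut j α u l) * (percLaw gm lam).real (Cut j (α + bv j) u l)) * 
        (percLaw gm lam).real {ω | ∀ e ∈ rungs (box j α u l) j, ω e = 0} := by
        rw [sq]
        have h1 := h α u
        have h2 := h (α + bv j) u
        have h3 := prob_rungs lam (box j α u l) j
        rw [card_box] at h3
        push_cast at h3
        gcongr
    _ = (percLaw gm lam).real ((Cut j α u l ∩ Cut j (α + bv j) u l) ∩ 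
          {ω | ∀ e ∈ rungs (box j α u l) j, ω e = 0}) := by
        rw [i3, i12]
    _ ≤ _ := measureReal_mono cut_succ

end Pool.Agent.Lib.MP_1905b6_pr
end

section

/-!
The numerical recursion.
-/

open MeasureTheory ProbabilityTheory
open scoped ENNReal NNReal

namespace Pool.Agent.Lib.MP_1905b6_pr

lemma H.mono {lam : ℝ≥0} {j l : ℕ} {p p' : ℝ} (h : H lam j l p) (hp : p' ≤ p) : H lam j l p' :=
  fun α u => hp.trans (h α u)

lemma H_base (lam : ℝ≥0) : H lam 0 2 (Real.exp (-(theta lam : ℝ))) := by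
  intro α u
  have hne : ¬ (s((Multiplicative.ofAdd ((u, α) : A)), (Multiplicative.ofAdd ((u + 1, α) : A)))).IsDiag := by
    rw [Sym2.mk_isDiag_iff]
    intro h
    have := congrArg (fun g : Γ => (Multiplicative.toAdd g).1) h
    simp at this
  have h1 : (percLaw gm lam).real {ω : Ω | ∀ e ∈ ({⟨_, hne⟩} : Finset E), ω e = 0} 
      = Real.exp (-(theta lam : ℝ)) := by
    rw [prob_zero_on, Finset.sum_singleton, rate_eq lam rfl]
    congr 2
    rw [toAdd_ofAdd, toAdd_ofAdd]
    have : ((u + 1, α) : A) - (u, α) = ((1 : ℤ), (0 : ℕ →₀ ZMod 2)) := by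
      ext <;> simp
    rw [this, fw_line]
    simp
  rw [← h1]
  refine measureReal_mono ?_ (measure_ne_top _ _)
  intro ω hω'
  have hω : ω ⟨_, hne⟩ = 0 := hω' _ (Finset.mem_singleton_self _)
  refine ⟨{x | x ∈ box 0 α u 2 ∧ cx x = u}, fun x hx => hx.1, fun x hx hu => ⟨hx, hu⟩, ?_, ?_⟩
  · intro x hx; have := hx.2; push_cast; omega
  · rintro x ⟨hx, hxu⟩ y hy hyW - hadj
    have hyu : cx y ≠ u := fun h => hyW ⟨hy, h⟩
    rw [mem_box] at hx hy
    push_cast at hx hy
    have hy1 : cx y = u + 1 := by omega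
    have hx2 : cy x = α := by simpa [cube] using hx.2
    have hy2 : cy y = α := by simpa [cube] using hy.2
    have hx3 : x = Multiplicative.ofAdd ((u, α) : A) := by
      apply Multiplicative.toAdd.injective
      exact Prod.ext hxu hx2
    have hy3 : y = Multiplicative.ofAdd ((u + 1, α) : A) := by
      apply Multiplicative.toAdd.injective
      exact Prod.ext hy1 hy2
    subst hx3
    subst hy3
    obtain ⟨hne', hpos⟩ := hadj
    omega

/-- lower bounds for cut probabilities along the scales -/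
noncomputable def qs (t : ℝ) : ℕ → ℝ
  | 0 => Real.exp (-t)
  | (j + 1) => 1 - (1 - (qs t j) ^ 2 * Real.exp (-t)) ^ (2 ^ (2 ^ (j + 1)))

lemma qs_pos_le (t : ℝ) (ht : 0 ≤ t) : ∀ j, 0 < qs t j ∧ qs t j ≤ 1 := by
  have he : 0 < Real.exp (-t) := Real.exp_pos _
  have he1 : Real.exp (-t) ≤ 1 := by rw [Real.exp_le_one_iff]; linarith
  intro j
  induction j with
  | zero => exact ⟨he, he1⟩
  | succ j ih =>
    have hx0 : 0 < (qs t j) ^ 2 * Real.exp (-t) := by have := ih.1; positivity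
    have hx1 : (qs t j) ^ 2 * Real.exp (-t) ≤ 1 := by
      have : (qs t j) ^ 2 ≤ 1 := pow_le_one₀ ih.1.le ih.2
      nlinarith
    constructor
    · show 0 < 1 - (1 - (qs t j) ^ 2 * Real.exp (-t)) ^ (2 ^ (2 ^ (j + 1)))
      have : (1 - (qs t j) ^ 2 * Real.exp (-t)) ^ (2 ^ (2 ^ (j + 1))) < 1 := 
        pow_lt_one₀ (by linarith) (by linarith) (by positivity)
      linarith
    · show 1 - (1 - (qs t j) ^ 2 * Real.exp (-t)) ^ (2 ^ (2 ^ (j + 1))) ≤ 1
      have : 0 ≤ (1 - (qs t j) ^ 2 * Real.exp (-t)) ^ (2 ^ (2 ^ (j + 1))) := 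
        pow_nonneg (by linarith) _
      linarith

lemma wr_mul (j : ℕ) : (wr j : ℝ) * (((2 ^ (2 ^ (j + 1)) : ℕ) : ℝ) * 2 ^ j) = 1 := by
  unfold wr
  push_cast
  rw [pow_add, ← mul_assoc]
  have h1 : ((2 : ℝ)⁻¹) ^ (2 ^ (j + 1)) * 2 ^ (2 ^ (j + 1)) = 1 := by
    rw [← mul_pow]; norm_num
  have h2 : ((2 : ℝ)⁻¹) ^ j * 2 ^ j = 1 := by
    rw [← mul_pow]; norm_num
  calc _ = (((2 : ℝ)⁻¹) ^ (2 ^ (j + 1)) * 2 ^ (2 ^ (j + 1))) * (((2 : ℝ)⁻¹) ^ j * 2 ^ j) := by ring
    _ = 1 := by rw [h1, h2]; norm_num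

lemma H_step {lam : ℝ≥0} {j : ℕ} {p : ℝ} (hp : 0 ≤ p) (h : H lam j (2 ^ (2 ^ (j + 1))) p) :
    H lam (j + 1) (2 ^ (2 ^ (j + 1))) (p ^ 2 * Real.exp (-(theta lam : ℝ))) := by
  have := H_succ hp h
  have e : (theta lam : ℝ) * wr j * (((2 ^ (2 ^ (j + 1)) : ℕ) : ℝ) * 2 ^ j) = theta lam := by
    rw [mul_assoc, wr_mul, mul_one]
  rw [e] at this
  exact this

lemma H_qs (lam : ℝ≥0) : ∀ j, H lam j (2 ^ (2 ^ (j + 1))) (qs (theta lam) j) := by
  have ht : (0 : ℝ) ≤ theta lam := NNReal.coe_nonneg _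
  have he : 0 < Real.exp (-(theta lam : ℝ)) := Real.exp_pos _
  have he1 : Real.exp (-(theta lam : ℝ)) ≤ 1 := by rw [Real.exp_le_one_iff]; linarith
  intro j
  induction j with
  | zero =>
    have h := H_double (by norm_num) he1 (H_base lam)
    have : 2 ^ 2 ^ (0 + 1) = 2 * 2 := by norm_num
    rw [this]
    apply h.mono
    show Real.exp (-(theta lam : ℝ)) ≤ _
    nlinarith
  | succ j ih =>
    have hq := qs_pos_le _ ht j
    have h1 := H_step hq.1.le ih
    have hx1 : (qs (theta lam) j) ^ 2 * Real.exp (-(theta lam : ℝ)) ≤ 1 := by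
      have : (qs (theta lam) j) ^ 2 ≤ 1 := pow_le_one₀ hq.1.le hq.2
      nlinarith
    have h2 := H_iter (by positivity) hx1 h1 (2 ^ (j + 1))
    have e : 2 ^ 2 ^ (j + 1) * 2 ^ 2 ^ (j + 1) = 2 ^ 2 ^ (j + 1 + 1) := by
      rw [← pow_add]; congr 1; ring
    rw [e] at h2
    exact h2

lemma one_sub_pow_ge {x : ℝ} (hx : x ≤ 1) (hx0 : 0 ≤ x) (M : ℕ) (h : 1 - (1 - x) ^ M < 1 / 2) : 
    x * M / 2 ≤ 1 - (1 - x) ^ M := by
  have h1 : (1 - x) ^ M ≤ Real.exp (-(x * M)) := by
    have : 1 - x ≤ Real.exp (-x) := Real.one_sub_le_exp_neg x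
    calc (1 - x) ^ M ≤ (Real.exp (-x)) ^ M := pow_le_pow_left₀ (by linarith) this M
      _ = _ := by rw [← Real.exp_nat_mul]; congr 1; ring
  set y : ℝ := x * M with hy
  have hy0 : 0 ≤ y := by positivity
  have h2 : Real.exp (-y) ≤ 1 / (1 + y) := by
    rw [Real.exp_neg, ← one_div]
    apply one_div_le_one_div_of_le (by positivity)
    linarith [Real.add_one_le_exp y]
  have h3 : (1 - x) ^ M ≤ 1 / (1 + y) := h1.trans h2
  have hy1 : y < 1 := by
    by_contra hcon
    have : 1 / (1 + y) ≤ 1 / 2 := one_div_le_one_div_of_le (by norm_num) (by linarith)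
    linarith
  have h4 : 1 / (1 + y) ≤ 1 - y / 2 := by
    rw [div_le_iff₀ (by linarith)]
    nlinarith
  linarith

lemma qs_frequently (t : ℝ) (ht : 0 ≤ t) (J : ℕ) : ∃ j, J ≤ j ∧ 1 / 2 ≤ qs t j := by
  by_contra hcon
  push Not at hcon
  have hlog2 : 0 < Real.log 2 := Real.log_pos (by norm_num)
  -- threshold
  obtain ⟨J', hJ'⟩ : ∃ J' : ℕ, J ≤ J' ∧ 2 * (t + Real.log 2) / Real.log 2 ≤ (2 : ℝ) ^ (J' + 1) := by
    obtain ⟨n, hn⟩ := pow_unbounded_of_one_lt (2 * (t + Real.log 2) / Real.log 2) 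
      (by norm_num : (1 : ℝ) < 2)
    refine ⟨max J n, le_max_left _ _, hn.le.trans ?_⟩
    apply pow_le_pow_right₀ (by norm_num)
    have := le_max_right J n
    omega
  set v : ℕ → ℝ := fun j => (-Real.log (qs t j)) / 2 ^ j with hv
  have hvnn : ∀ j, 0 ≤ v j := by
    intro j
    have := qs_pos_le t ht j
    have h2 := Real.log_nonpos this.1.le this.2
    simp only [hv]
    apply div_nonneg (by linarith) (by positivity)
  have hstep : ∀ j, J' ≤ j → v (j + 1) ≤ v j - Real.log 2 / 2 := by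
    intro j hj
    have hq := qs_pos_le t ht j
    have hq' := qs_pos_le t ht (j + 1)
    have h1 := hcon (j + 1) (by omega)
    have he : 0 < Real.exp (-t) := Real.exp_pos _
    have he1 : Real.exp (-t) ≤ 1 := by rw [Real.exp_le_one_iff]; linarith
    have hx0 : 0 < (qs t j) ^ 2 * Real.exp (-t) := by have := hq.1; positivity
    have hx1 : (qs t j) ^ 2 * Real.exp (-t) ≤ 1 := by
      have : (qs t j) ^ 2 ≤ 1 := pow_le_one₀ hq.1.le hq.2
      nlinarith
    have h2 := one_sub_pow_ge hx1 hx0.le (2 ^ (2 ^ (j + 1))) h1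
    have h3 : (qs t j) ^ 2 * Real.exp (-t) * ((2 ^ (2 ^ (j + 1)) : ℕ) : ℝ) / 2 ≤ qs t (j + 1) := h2
    have h4 : Real.log ((qs t j) ^ 2 * Real.exp (-t) * ((2 ^ (2 ^ (j + 1)) : ℕ) : ℝ) / 2) 
        ≤ Real.log (qs t (j + 1)) := by
      apply Real.log_le_log _ h3
      positivity
    have h5 : Real.log ((qs t j) ^ 2 * Real.exp (-t) * ((2 ^ (2 ^ (j + 1)) : ℕ) : ℝ) / 2) 
        = 2 * Real.log (qs t j) - t + 2 ^ (j + 1) * Real.log 2 - Real.log 2 := by
      rw [Real.log_div (by positivity) (by norm_num), Real.log_mul (by positivity) (by positivity),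
        Real.log_mul (by have := hq.1; positivity) (by positivity), Real.log_exp, Real.log_pow]
      push_cast
      rw [Real.log_pow]
      push_cast
      ring
    rw [h5] at h4
    -- divide by 2^(j+1)
    have hpow : (0 : ℝ) < 2 ^ (j + 1) := by positivity
    have hbig : 2 * (t + Real.log 2) ≤ 2 ^ (j + 1) * Real.log 2 := by
      have : (2 : ℝ) ^ (J' + 1) ≤ 2 ^ (j + 1) := pow_le_pow_right₀ (by norm_num) (by omega)
      have h6 := hJ'.2.trans this
      rwa [div_le_iff₀ hlog2] at h6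
    simp only [hv]
    rw [div_le_iff₀ hpow]
    have e : (-Real.log (qs t j) / 2 ^ j - Real.log 2 / 2) * 2 ^ (j + 1) 
        = -2 * Real.log (qs t j) - 2 ^ (j + 1) * Real.log 2 / 2 := by
      rw [pow_succ]
      have : (2 : ℝ) ^ j ≠ 0 := by positivity
      field_simp
    rw [e]
    linarith
  have hit : ∀ n : ℕ, v (J' + n) ≤ v J' - n * (Real.log 2 / 2) := by
    intro n
    induction n with
    | zero => simp
    | succ n ih =>
      have := hstep (J' + n) (by omega)
      rw [← add_assoc]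
      push_cast
      linarith
  obtain ⟨n, hn⟩ := exists_nat_gt (v J' / (Real.log 2 / 2))
  rw [div_lt_iff₀ (by positivity)] at hn
  have := hit n
  have := hvnn (J' + n)
  linarith

/-- Good scales exist. -/
theorem good_scale (lam : ℝ≥0) (δ : ℝ) (hδ : 0 < δ) : 
    ∃ j l : ℕ, 0 < l ∧ H lam j l (1 - δ) ∧ 
      (theta lam : ℝ) * ((2 * l + 1) * 2 ^ j) * (2 * wr j) ≤ δ := by
  set t : ℝ := (theta lam : ℝ) with htdef
  have ht : (0 : ℝ) ≤ t := NNReal.coe_nonneg _
  have he : 0 < Real.exp (-t) := Real.exp_pos _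
  have he1 : Real.exp (-t) ≤ 1 := by rw [Real.exp_le_one_iff]; linarith
  have hpp : Filter.Tendsto (fun j : ℕ => 2 ^ j) Filter.atTop Filter.atTop := 
    tendsto_pow_atTop_atTop_of_one_lt (by norm_num : 1 < 2)
  have hpp2 : Filter.Tendsto (fun j : ℕ => 2 ^ (2 ^ j)) Filter.atTop Filter.atTop := 
    hpp.comp hpp
  have l1 : Filter.Tendsto (fun j : ℕ => (1 - (1 / 2 : ℝ) ^ 2 * Real.exp (-t)) ^ (2 ^ (2 ^ j)))
      Filter.atTop (nhds 0) := by
    apply (tendsto_pow_atTop_nhds_zero_of_lt_one (r := 1 - (1 / 2 : ℝ) ^ 2 * Real.exp (-t)) 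
      (by linarith) (by linarith)).comp hpp2
  have l2 : Filter.Tendsto (fun j : ℕ => (6 * t) * (1 / 2 : ℝ) ^ (2 ^ j))
      Filter.atTop (nhds 0) := by
    have := (tendsto_pow_atTop_nhds_zero_of_lt_one (r := (1 / 2 : ℝ)) 
      (by norm_num) (by norm_num)).comp hpp
    simpa using this.const_mul (6 * t)
  have e1 := (l1.eventually (gt_mem_nhds hδ))
  have e2 := (l2.eventually (gt_mem_nhds hδ))
  obtain ⟨J, hJ⟩ := Filter.eventually_atTop.1 (e1.and e2)
  obtain ⟨j, hj, hqj⟩ := qs_frequently t ht J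
  obtain ⟨h1, h2⟩ := hJ j hj
  have a1 := (H_qs lam j).mono hqj
  have a2 := H_step (by norm_num) a1
  have a3 := H_iter (by positivity) (by
    have : (1 / 2 : ℝ) ^ 2 * Real.exp (-t) ≤ 1 := by linarith
    exact this) a2 (2 ^ j)
  refine ⟨j + 1, 2 ^ 2 ^ j * 2 ^ 2 ^ (j + 1), by positivity, a3.mono (by linarith), ?_⟩
  have hl : (1 : ℝ) ≤ ((2 ^ 2 ^ j * 2 ^ 2 ^ (j + 1) : ℕ) : ℝ) := by
    exact_mod_cast Nat.one_le_iff_ne_zero.2 (by positivity)
  have hw : (0 : ℝ) ≤ wr (j + 1) := NNReal.coe_nonneg _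
  calc t * ((2 * ((2 ^ 2 ^ j * 2 ^ 2 ^ (j + 1) : ℕ) : ℝ) + 1) * 2 ^ (j + 1)) * (2 * wr (j + 1))
      ≤ t * ((3 * ((2 ^ 2 ^ j * 2 ^ 2 ^ (j + 1) : ℕ) : ℝ)) * 2 ^ (j + 1)) * (2 * wr (j + 1)) := by
        gcongr
        linarith
    _ = (6 * t) * (1 / 2 : ℝ) ^ (2 ^ j) := by
        unfold wr
        push_cast
        have e : (2 : ℝ)⁻¹ ^ (2 ^ (j + 1 + 1) + (j + 1)) = 
            (1 / 2 : ℝ) ^ (2 ^ j) * (2⁻¹ ^ (2 ^ j) * 2⁻¹ ^ (2 ^ (j + 1)) * 2⁻¹ ^ (j + 1)) := by
          rw [one_div, ← pow_add, ← pow_add, ← pow_add]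
          congr 1
          ring
        rw [e]
        have x1 : (2 : ℝ) ^ (2 ^ j) * 2⁻¹ ^ (2 ^ j) = 1 := by rw [← mul_pow]; norm_num
        have x2 : (2 : ℝ) ^ (2 ^ (j + 1)) * 2⁻¹ ^ (2 ^ (j + 1)) = 1 := by rw [← mul_pow]; norm_num
        have x3 : (2 : ℝ) ^ (j + 1) * 2⁻¹ ^ (j + 1) = 1 := by rw [← mul_pow]; norm_num
        calc _ = (6 * t) * (1 / 2 : ℝ) ^ (2 ^ j) * ((2 : ℝ) ^ (2 ^ j) * 2⁻¹ ^ (2 ^ j)) * 
              ((2 : ℝ) ^ (2 ^ (j + 1)) * 2⁻¹ ^ (2 ^ (j + 1))) * 
              ((2 : ℝ) ^ (j + 1) * 2⁻¹ ^ (j + 1)) := by ring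
          _ = _ := by rw [x1, x2, x3]; ring
    _ ≤ δ := h2.le

end Pool.Agent.Lib.MP_1905b6_pr
end

section

/-!
Absence of percolation in the example.
-/

open MeasureTheory ProbabilityTheory
open scoped ENNReal NNReal

namespace Pool.Agent.Lib.MP_1905b6_pr

lemma wr_succ_le (j : ℕ) : (wr (j + 1) : ℝ≥0∞) ≤ 2⁻¹ * (wr j : ℝ≥0∞) := by
  have h : wr (j + 1) ≤ 2⁻¹ * wr j := by
    unfold wr
    rw [← pow_succ']
    apply pow_le_pow_right_of_le_one' 
    · have : (2 : ℝ≥0)⁻¹ ≤ 1 := by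
        rw [inv_le_one₀ (by norm_num)]; norm_num
      exact this
    · have : 2 ^ (j + 1) ≤ 2 ^ (j + 1 + 1) := Nat.pow_le_pow_right (by norm_num) (by omega)
      omega
  have h' : ((wr (j + 1) : ℝ≥0) : ℝ≥0∞) ≤ ((2⁻¹ * wr j : ℝ≥0) : ℝ≥0∞) := by exact_mod_cast h
  refine h'.trans (le_of_eq ?_)
  rw [ENNReal.coe_mul, ENNReal.coe_inv (by norm_num)]
  rfl

lemma wr_add_le (j i : ℕ) : (wr (j + i) : ℝ≥0∞) ≤ (2⁻¹ : ℝ≥0∞) ^ i * (wr j : ℝ≥0∞) := by
  induction i with
  | zero => simp
  | succ i ih =>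
    calc (wr (j + (i + 1)) : ℝ≥0∞) ≤ 2⁻¹ * (wr (j + i) : ℝ≥0∞) := wr_succ_le (j + i)
      _ ≤ 2⁻¹ * ((2⁻¹ : ℝ≥0∞) ^ i * (wr j : ℝ≥0∞)) := by gcongr
      _ = _ := by rw [pow_succ]; ring

lemma tail_le (j : ℕ) : ∑' i : ℕ, (wr (j + i) : ℝ≥0∞) ≤ 2 * (wr j : ℝ≥0∞) := by
  calc ∑' i : ℕ, (wr (j + i) : ℝ≥0∞) ≤ ∑' i : ℕ, (2⁻¹ : ℝ≥0∞) ^ i * (wr j : ℝ≥0∞) := 
        ENNReal.tsum_le_tsum (wr_add_le j)
    _ = 2 * (wr j : ℝ≥0∞) := by
        rw [ENNReal.tsum_mul_right, ENNReal.tsum_geometric, ENNReal.one_sub_inv_two, inv_inv]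

/-- union bound for rungs of high direction -/
lemma high_rungs (lam : ℝ≥0) (B : Finset Γ) (j : ℕ) : 
    (percLaw gm lam) {ω | ∃ i : ℕ, ∃ e ∈ rungs B (j + i), ω e ≠ 0} ≤ 
      (theta lam : ℝ≥0∞) * B.card * (2 * (wr j : ℝ≥0∞)) := by
  have h1 : {ω : Ω | ∃ i : ℕ, ∃ e ∈ rungs B (j + i), ω e ≠ 0} 
      = ⋃ i : ℕ, ⋃ e ∈ rungs B (j + i), {ω : Ω | ω e ≠ 0} := by
    ext ω; simp
  rw [h1]
  calc (percLaw gm lam) (⋃ i : ℕ, ⋃ e ∈ rungs B (j + i), {ω : Ω | ω e ≠ 0}) 
      ≤ ∑' i : ℕ, (percLaw gm lam) (⋃ e ∈ rungs B (j + i), {ω : Ω | ω e ≠ 0}) := 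
        measure_iUnion_le _
    _ ≤ ∑' i : ℕ, (theta lam : ℝ≥0∞) * B.card * (wr (j + i) : ℝ≥0∞) := by
        apply ENNReal.tsum_le_tsum
        intro i
        calc (percLaw gm lam) (⋃ e ∈ rungs B (j + i), {ω : Ω | ω e ≠ 0}) 
            ≤ ∑ e ∈ rungs B (j + i), (percLaw gm lam) {ω : Ω | ω e ≠ 0} := 
              measure_biUnion_finset_le _ _
          _ ≤ ∑ e ∈ rungs B (j + i), ((theta lam * wr (j + i) : ℝ≥0) : ℝ≥0∞) := by
              apply Finset.sum_le_sum
              intro e he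
              rw [← rate_rung lam he]
              exact prob_ne_zero_le lam e
          _ = ((rungs B (j + i)).card : ℝ≥0∞) * ((theta lam * wr (j + i) : ℝ≥0) : ℝ≥0∞) := by
              rw [Finset.sum_const, nsmul_eq_mul]
          _ ≤ (B.card : ℝ≥0∞) * ((theta lam * wr (j + i) : ℝ≥0) : ℝ≥0∞) := by
              gcongr
              exact card_rungs_le _ _
          _ = _ := by rw [ENNReal.coe_mul]; ring
    _ = (theta lam : ℝ≥0∞) * B.card * ∑' i : ℕ, (wr (j + i) : ℝ≥0∞) := ENNReal.tsum_mul_left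
    _ ≤ _ := by gcongr; exact tail_le j

instance : Countable Γ := Multiplicative.toAdd.injective.countable

/-- a set closed under adjacency contains the cluster of each of its points -/
lemma reach_subset {G : SimpleGraph Γ} {X : Set Γ} 
    (hclosed : ∀ x ∈ X, ∀ y, G.Adj x y → y ∈ X) {v : Γ} (hv : v ∈ X) : 
    {y | G.Reachable v y} ⊆ X := by
  intro y hy
  obtain ⟨p⟩ := hy
  induction p with
  | nil => exact hv
  | cons h p ih => exact ih (hclosed _ hv _ h)

/-- almost surely there are no edges between non-neighbours -/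
lemma ae_nb (lam : ℝ≥0) : 
    ∀ᵐ ω ∂(percLaw gm lam), ∀ x y : Γ, (openGraph ω).Adj x y → NbG x y := by
  rw [ae_all_iff]
  intro x
  rw [ae_all_iff]
  intro y
  by_cases hN : NbG x y
  · exact Filter.Eventually.of_forall fun _ _ => hN
  · by_cases hd : (s(x, y)).IsDiag
    · exact Filter.Eventually.of_forall fun ω hadj => absurd hd hadj.1
    · have hr : rate lam ⟨s(x, y), hd⟩ = 0 := by
        rw [rate_eq lam rfl, fw_eq_zero_of_not_nb hN]; simp
      have h0 := prob_ne_zero_le lam ⟨s(x, y), hd⟩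
      rw [hr, ENNReal.coe_zero, nonpos_iff_eq_zero] at h0
      have : ∀ᵐ ω ∂(percLaw gm lam), ω ⟨s(x, y), hd⟩ = 0 := by
        rw [ae_iff]; exact h0
      filter_upwards [this] with ω hω hadj
      obtain ⟨hne, hpos⟩ := hadj
      omega

/-- deterministic part: cuts on both sides confine the cluster -/
lemma confine {ω : Ω} (hN : ∀ x y : Γ, (openGraph ω).Adj x y → NbG x y) {j l : ℕ} (hl : 0 < l) (v : Γ)
    (hR : ω ∈ Cut j (cy v) (cx v + 1) l) (hL : ω ∈ Cut j (cy v) (cx v - l) l)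
    (hH : ¬ ∃ i : ℕ, ∃ e ∈ rungs (box j (cy v) (cx v - l) (2 * l + 1)) (j + i), ω e ≠ 0) : 
    {y | (openGraph ω).Reachable v y} ⊆ box j (cy v) (cx v - l) (2 * l + 1) := by
  obtain ⟨W, a1, a2, a3, a4⟩ := hR
  obtain ⟨V, b1, b2, b3, b4⟩ := hL
  set Bx := box j (cy v) (cx v - l) (2 * l + 1) with hBx
  -- the confining set
  set X : Set Γ := {x | x ∈ Bx ∧ (cx v < cx x → x ∈ W) ∧ (cx x < cx v → x ∉ V)} with hX
  have hvX : v ∈ X := by
    refine ⟨?_, fun h => absurd h (lt_irrefl _), fun h => absurd h (lt_irrefl _)⟩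
    rw [hBx, mem_box]
    push_cast
    exact ⟨⟨by omega, by omega⟩, self_mem_cube _ _⟩
  have hclosed : ∀ x ∈ X, ∀ y, (openGraph ω).Adj x y → y ∈ X := by
    rintro x ⟨hxB, hxW, hxV⟩ y hadj
    have hNxy := hN x y hadj
    have habs := hNxy.abs_le
    have hxB' := hxB
    rw [hBx, mem_box] at hxB'
    push_cast at hxB'
    -- the second coordinate stays in the cube
    have hcube : cy y ∈ cube j (cy v) := by
      have hxc := hxB'.2
      rw [mem_cube] at hxc ⊢
      unfold NbG Nb at hNxy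
      rcases hNxy with h | h | ⟨i, h⟩
      · have h2 := congrArg Prod.snd h
        rw [Prod.snd_sub, sub_eq_zero] at h2
        intro k hk; unfold cy; rw [h2]; exact hxc k hk
      · have h2 := congrArg Prod.snd h
        rw [Prod.snd_sub, sub_eq_zero] at h2
        intro k hk; unfold cy; rw [h2]; exact hxc k hk
      · by_cases hij : j ≤ i
        · exfalso
          apply hH
          refine ⟨i - j, ?_⟩
          rw [Nat.add_sub_cancel' hij]
          have hyx : y = x * Multiplicative.ofAdd (((0 : ℤ), bv i) : A) := by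
            apply Multiplicative.toAdd.injective
            rw [toAdd_mul, toAdd_ofAdd]
            rw [sub_eq_iff_eq_add'] at h
            exact h
          obtain ⟨hne, hpos⟩ := hadj
          refine ⟨⟨s(x, y), hne⟩, ?_, by omega⟩
          rw [mem_rungs]
          exact ⟨x, hxB, by show s(x, y) = _; rw [← hyx]⟩
        · have h2 := congrArg Prod.snd h
          rw [Prod.snd_sub, sub_eq_iff_eq_add'] at h2
          intro k hk; unfold cy; rw [h2, Finsupp.add_apply]
          have := hxc k hk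
          unfold cy at this
          rw [this, bv_apply, if_neg (by omega), add_zero]
    -- right side
    have hright : cx v < cx y → y ∈ W := by
      intro hy
      by_cases hx : cx v < cx x
      · have hxW' := hxW hx
        have hxb := a1 hxW'
        have hx3 := a3 x hxW'
        rw [Finset.mem_coe, mem_box] at hxb
        by_contra hyW
        have hyb : y ∈ box j (cy v) (cx v + 1) l := by
          rw [mem_box]; exact ⟨⟨by omega, by omega⟩, hcube⟩
        exact a4 x hxW' y hyb hyW hNxy hadj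
      · apply a2 y
        · rw [mem_box]; exact ⟨⟨by omega, by omega⟩, hcube⟩
        · omega
    have hleft : cx y < cx v → y ∉ V := by
      intro hy hyV
      by_cases hx : cx x < cx v
      · have hxV' := hxV hx
        have hxb : x ∈ box j (cy v) (cx v - l) l := by
          rw [mem_box]; exact ⟨⟨by omega, by omega⟩, hxB'.2⟩
        exact b4 y hyV x hxb hxV' (hN y x hadj.symm) hadj.symm
      · have := b3 y hyV
        omega
    refine ⟨?_, hright, hleft⟩
    rw [hBx, mem_box]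
    push_cast
    refine ⟨⟨?_, ?_⟩, hcube⟩
    · by_contra hcon
      -- then x is in the leftmost column, hence in V
      have hxl : cx x = cx v - l := by omega
      have hxb : x ∈ box j (cy v) (cx v - l) l := by
        rw [mem_box]; exact ⟨⟨by omega, by omega⟩, hxB'.2⟩
      exact hxV (by omega) (b2 x hxb hxl)
    · by_contra hcon
      have hxr : cx x = cx v + l := by omega
      have hxW' := hxW (by omega)
      have := a3 x hxW'
      omega
  exact (reach_subset hclosed hvX).trans (fun x hx => hx.1)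

/-- For every vertex and every intensity the cluster is almost surely finite. -/
theorem ae_finite (lam : ℝ≥0) (v : Γ) : 
    ∀ᵐ ω ∂(percLaw gm lam), {y | (openGraph ω).Reachable v y}.Finite := by
  rw [ae_iff]
  set Bad : Set Ω := {ω | ¬ {y | (openGraph ω).Reachable v y}.Finite} with hBad
  by_contra hne
  have hpos : 0 < (percLaw gm lam) Bad := pos_iff_ne_zero.2 hne
  -- choose a small δ
  have htop : (percLaw gm lam) Bad ≠ ∞ := measure_ne_top _ _
  set δ : ℝ := ((percLaw gm lam) Bad).toReal / 4 with hδdef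
  have hδ : 0 < δ := by
    have := ENNReal.toReal_pos hne htop
    positivity
  obtain ⟨j, l, hl, hH, hsum⟩ := good_scale lam δ hδ
  set R := Cut j (cy v) (cx v + 1) l with hR
  set L := Cut j (cy v) (cx v - l) l with hL
  set B := box j (cy v) (cx v - l) (2 * l + 1) with hB
  set U : Set Ω := {ω | ∃ i : ℕ, ∃ e ∈ rungs B (j + i), ω e ≠ 0} with hU
  set N : Set Ω := {ω | ¬ ∀ x y : Γ, (openGraph ω).Adj x y → NbG x y} with hNdef
  have hsub : Bad ⊆ ((Rᶜ ∪ Lᶜ) ∪ U) ∪ N := by
    intro ω hω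
    by_contra hcon
    rw [Set.mem_union, Set.mem_union, Set.mem_union] at hcon
    push Not at hcon
    obtain ⟨⟨⟨h1, h2⟩, h3⟩, h4⟩ := hcon
    rw [Set.notMem_compl_iff] at h1 h2
    have h4' : ∀ x y : Γ, (openGraph ω).Adj x y → NbG x y := by
      by_contra h; exact h4 h
    apply hω
    exact (Finset.finite_toSet _).subset (confine h4' hl v h1 h2 h3)
  have hRp : (percLaw gm lam) Rᶜ ≤ ENNReal.ofReal δ := by
    have h1 : (percLaw gm lam).real Rᶜ ≤ δ := by
      rw [probReal_compl_eq_one_sub (dep_cut _ _ _ _).measurableSet]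
      linarith [hH (cy v) (cx v + 1)]
    rw [measureReal_def] at h1
    exact (ENNReal.le_ofReal_iff_toReal_le (measure_ne_top _ _) hδ.le).2 h1
  have hLp : (percLaw gm lam) Lᶜ ≤ ENNReal.ofReal δ := by
    have h1 : (percLaw gm lam).real Lᶜ ≤ δ := by
      rw [probReal_compl_eq_one_sub (dep_cut _ _ _ _).measurableSet]
      linarith [hH (cy v) (cx v - l)]
    rw [measureReal_def] at h1
    exact (ENNReal.le_ofReal_iff_toReal_le (measure_ne_top _ _) hδ.le).2 h1
  have hUp : (percLaw gm lam) U ≤ ENNReal.ofReal δ := by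
    refine (high_rungs lam B j).trans ?_
    have e : (theta lam : ℝ≥0∞) * B.card * (2 * (wr j : ℝ≥0∞)) 
        = ENNReal.ofReal ((theta lam : ℝ) * ((2 * l + 1) * 2 ^ j) * (2 * wr j)) := by
      rw [hB, card_box]
      have h1 : ((theta lam : ℝ) * ((2 * l + 1) * 2 ^ j) * (2 * wr j)) 
          = ((theta lam * (((2 * l + 1) * 2 ^ j : ℕ) : ℝ≥0) * (2 * wr j) : ℝ≥0) : ℝ) := by
        push_cast; ring
      rw [h1, ENNReal.ofReal_coe_nnreal]
      push_cast
      ring
    rw [e]
    exact ENNReal.ofReal_le_ofReal hsum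
  have hNp : (percLaw gm lam) N = 0 := ae_iff.1 (ae_nb lam)
  have hfin : (percLaw gm lam) Bad ≤ ENNReal.ofReal (3 * δ) := by
    calc (percLaw gm lam) Bad ≤ (percLaw gm lam) (((Rᶜ ∪ Lᶜ) ∪ U) ∪ N) := measure_mono hsub
      _ ≤ (((percLaw gm lam) Rᶜ + (percLaw gm lam) Lᶜ) + (percLaw gm lam) U) 
            + (percLaw gm lam) N := by
          refine (measure_union_le _ _).trans ?_
          gcongr
          refine (measure_union_le _ _).trans ?_
          gcongr
          exact measure_union_le _ _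
      _ ≤ ((ENNReal.ofReal δ + ENNReal.ofReal δ) + ENNReal.ofReal δ) + 0 := by
          rw [hNp]; gcongr
      _ = ENNReal.ofReal (3 * δ) := by
          rw [add_zero, ← ENNReal.ofReal_add hδ.le hδ.le, ← ENNReal.ofReal_add (by positivity) hδ.le]
          congr 1; ring
  have h5 : ((percLaw gm lam) Bad).toReal ≤ 3 * δ := 
    ENNReal.toReal_le_of_le_ofReal (by positivity) hfin
  have h6 : ((percLaw gm lam) Bad).toReal = 4 * δ := by rw [hδdef]; ring
  linarith

/-- No infinite component, almost surely, at any intensity. -/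
theorem no_percolation (lam : ℝ≥0) : 
    ∀ᵐ ω ∂(percLaw gm lam), ∀ C : (openGraph ω).ConnectedComponent, C.supp.Finite := by
  have h := ae_all_iff.2 (fun v => ae_finite lam v)
  filter_upwards [h] with ω hω C
  induction C using SimpleGraph.ConnectedComponent.ind with
  | _ v =>
    refine (hω v).subset ?_
    intro y hy
    rw [SimpleGraph.ConnectedComponent.mem_supp_iff, SimpleGraph.ConnectedComponent.eq] at hy
    exact hy.symm

end Pool.Agent.Lib.MP_1905b6_pr
end
end
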